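import Pool.Agent.TH700.PA.Density
import Pool.Agent.TH700.PA.Count
import Mathlib.Combinatorics.SimpleGraph.Basic
import Mathlib.Data.Sym.Card

/-!
# Vertex cover and read-once tensor networks
-/

set_option autoImplicit false

open Finset

namespace Pool.Agent.V11163.VC

open Pool.Agent.TH700.PA

variable {n t : ℕ}

open Classical in
/-- The adjacency bits of a graph. -/
noncomputable def bits (G : SimpleGraph (Fin n)) (e : Sym2 (Fin n)) : Bool :=
  decide (e ∈ G.edgeSet)

/-- `C` is a vertex cover. -/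
def Cover (G : SimpleGraph (Fin n)) (C : Finset (Fin n)) : Prop :=
  ∀ u v, G.Adj u v → u ∈ C ∨ v ∈ C

/-- The graph in which exactly the pairs of vertices with `A = true` are not adjacent. -/
def GA (A : Fin n → Bool) : SimpleGraph (Fin n) where
  Adj u v := u ≠ v ∧ ¬ (A u = true ∧ A v = true)
  symm := ⟨fun _ _ h => ⟨h.1.symm, fun h' => h.2 ⟨h'.2, h'.1⟩⟩⟩
  loopless := ⟨fun _ h => h.1 rfl⟩

/-- The instance. -/
noncomputable def z (A : Fin n → Bool) : Sym2 (Fin n) → Bool := bits (GA A)

theorem z_diag (A : Fin n → Bool) (v : Fin n) : z A s(v, v) = false := by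
  unfold z bits
  rw [decide_eq_false_iff_not, SimpleGraph.mem_edgeSet]
  exact fun h => h.1 rfl

theorem z_false {A : Fin n → Bool} {u v : Fin n} (huv : u ≠ v) (h : z A s(u, v) = false) :
    A u = true ∧ A v = true := by
  unfold z bits at h
  rw [decide_eq_false_iff_not, SimpleGraph.mem_edgeSet] at h
  by_contra hcon
  exact h ⟨huv, hcon⟩

/-- The graph of a mixture. -/
def GM (x : Sym2 (Fin n) → Bool) : SimpleGraph (Fin n) where
  Adj u v := u ≠ v ∧ x s(u, v) = true
  symm := ⟨fun u v h => ⟨h.1.symm, by rw [Sym2.eq_swap]; exact h.2⟩⟩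
  loopless := ⟨fun _ h => h.1 rfl⟩

theorem bits_GM {x : Sym2 (Fin n) → Bool} (hx : ∀ v, x s(v, v) = false) : bits (GM x) = x := by
  classical
  funext e
  unfold bits
  induction e with
  | _ u v =>
    rw [Bool.eq_iff_iff, decide_eq_true_iff, SimpleGraph.mem_edgeSet]
    constructor
    · exact fun h => h.2
    · intro h
      refine ⟨?_, h⟩
      rintro rfl
      rw [hx] at h
      exact Bool.noConfusion h

/-- The coincidences which are forced by an independent set. -/
noncomputable def SJ (p : Sym2 (Fin n) → Fin t) (J : Finset (Fin n)) :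
    Finset (Fin t × Fin n) := by
  classical
  exact univ.filter (fun s => s.2 ∈ J ∧ ∃ u ∈ J, u ≠ s.2 ∧ p s(u, s.2) = s.1)

open Classical in
theorem card_SJ {y : ℕ} (p : Sym2 (Fin n) → Fin t)
    (hp : ∀ j, (univ.filter (fun e => p e = j)).card ≤ 2 * y ^ 2) (J : Finset (Fin n)) :
    J.card * (J.card - 1) ≤ 2 * y * (SJ p J).card := by
  have h0 : J.card * (J.card - 1) = J.offDiag.card := by
    rw [offDiag_card, Nat.mul_sub, mul_one]
  have h1 : J.offDiag.card = ∑ j, (J.offDiag.filter (fun x => p s(x.1, x.2) = j)).card :=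
    card_eq_sum_card_fiberwise (fun _ _ => mem_univ _)
  have h2 : (SJ p J).card = ∑ j, ((SJ p J).filter (fun s => s.1 = j)).card :=
    card_eq_sum_card_fiberwise (fun _ _ => mem_univ _)
  rw [h0, h1, h2, mul_sum]
  refine sum_le_sum fun j _ => ?_
  obtain ⟨k, hk⟩ : ∃ k, k = ((SJ p J).filter (fun s => s.1 = j)).card := ⟨_, rfl⟩
  have h3 : (J.offDiag.filter (fun x => p s(x.1, x.2) = j)).card ≤ 2 * (2 * y ^ 2) := by
    have h4 : (J.offDiag.filter (fun x => p s(x.1, x.2) = j)).card ≤
        2 * (univ.filter (fun e => p e = j)).card := by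
      refine card_le_mul_card_image_of_maps_to (f := fun x : Fin n × Fin n => s(x.1, x.2))
        (t := univ.filter (fun e => p e = j)) ?_ 2 ?_
      · intro x hx
        exact mem_filter.2 ⟨mem_univ _, (mem_filter.1 hx).2⟩
      · intro e _
        induction e with
        | _ a c =>
          have h5 : (J.offDiag.filter (fun x => p s(x.1, x.2) = j)).filter
              (fun x => s(x.1, x.2) = s(a, c)) ⊆ {(a, c), (c, a)} := by
            intro x hx
            have := (mem_filter.1 hx).2
            rw [Sym2.eq_iff] at this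
            rw [mem_insert, mem_singleton]
            rcases this with ⟨h4, h5⟩ | ⟨h4, h5⟩
            · exact Or.inl (Prod.ext h4 h5)
            · exact Or.inr (Prod.ext h4 h5)
          exact (card_le_card h5).trans card_le_two
    exact h4.trans (Nat.mul_le_mul_left _ (hp j))
  have h4 : (J.offDiag.filter (fun x => p s(x.1, x.2) = j)).card ≤ k * k := by
    rw [hk, ← card_product]
    refine card_le_card_of_injOn (fun x => ((j, x.1), (j, x.2))) (fun x hx => ?_)
      (fun x _ x' _ h => ?_)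
    · rw [mem_coe, mem_filter, mem_offDiag] at hx
      obtain ⟨⟨hx1, hx2, hx3⟩, rfl⟩ := hx
      rw [mem_coe, mem_product]
      unfold SJ
      refine ⟨mem_filter.2 ⟨mem_filter.2 ⟨mem_univ _, hx1, x.2, hx2, hx3.symm, ?_⟩, rfl⟩,
        mem_filter.2 ⟨mem_filter.2 ⟨mem_univ _, hx2, x.1, hx1, hx3, rfl⟩, rfl⟩⟩
      simp only
      rw [Sym2.eq_swap]
    · have e1 := congrArg (fun r => r.1.2) h
      have e2 := congrArg (fun r => r.2.2) h
      exact Prod.ext e1 e2
  rw [← hk]
  rcases le_total k (2 * y) with h5 | h5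
  · exact h4.trans (Nat.mul_le_mul_right _ h5)
  · refine h3.trans ?_
    nlinarith

open Classical in
/-- The tuples with given coincidences. -/
theorem card_coinc (S : Finset (Fin t × Fin n)) :
    (univ.filter (fun b : Fin t → Fin n → Bool => ∀ s ∈ S, b s.1 s.2 = true)).card *
      2 ^ S.card ≤ Fintype.card (Fin n → Bool) ^ t := by
  have h1 : univ.filter (fun b : Fin t → Fin n → Bool => ∀ s ∈ S, b s.1 s.2 = true) ⊆
      Fintype.piFinset (fun j => Fintype.piFinset (fun w =>
        if (j, w) ∈ S then ({true} : Finset Bool) else univ)) := by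
    intro b hb
    rw [Fintype.mem_piFinset]
    intro j
    rw [Fintype.mem_piFinset]
    intro w
    by_cases hw : (j, w) ∈ S
    · rw [if_pos hw, mem_singleton]
      exact (mem_filter.1 hb).2 (j, w) hw
    · rw [if_neg hw]
      exact mem_univ _
  refine (Nat.mul_le_mul_right _ (card_le_card h1)).trans (le_of_eq ?_)
  have h2 : ∏ s : Fin t × Fin n, (if s ∈ S then 2 else 1) = 2 ^ S.card := by
    rw [prod_ite, prod_const_one, mul_one, prod_const]
    congr 2
    ext i
    simp
  rw [Fintype.card_piFinset, ← h2, Fintype.prod_prod_type, ← prod_mul_distrib]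
  have h3 : ∀ j : Fin t, (Fintype.piFinset (fun w =>
        if (j, w) ∈ S then ({true} : Finset Bool) else univ)).card *
      ∏ w, (if (j, w) ∈ S then 2 else 1) = Fintype.card (Fin n → Bool) := by
    intro j
    rw [Fintype.card_piFinset, ← prod_mul_distrib]
    have h3 : ∀ w : Fin n, (if (j, w) ∈ S then ({true} : Finset Bool) else univ).card *
        (if (j, w) ∈ S then 2 else 1) = 2 := by
      intro w
      split_ifs <;> simp
    rw [prod_congr rfl fun w _ => h3 w, prod_const, card_univ, Fintype.card_fin,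
      Fintype.card_fun, Fintype.card_bool, Fintype.card_fin]
  refine (prod_congr rfl fun j _ => h3 j).trans ?_
  rw [prod_const, card_univ, Fintype.card_fin]

/-- Most mixtures have only small independent sets. -/
theorem few_bad {g y : ℕ} (hy : 12 * g ^ 2 * y ≤ n) (hg : 1 ≤ g) (hn : g ≤ n)
    (p : Sym2 (Fin n) → Fin t)
    (hp : ∀ j, (univ.filter (fun e => p e = j)).card ≤ 2 * y ^ 2) :
    ∃ B : Finset (Fin t → Fin n → Bool), (∀ b, (∃ C, Cover (GM (mixp p z b)) C ∧
      g * C.card < (g - 1) * n) → b ∈ B) ∧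
      B.card * 2 ^ (2 * n) ≤ Fintype.card (Fin n → Bool) ^ t := by
  classical
  let X : Finset (Fin n) → Finset (Fin t → Fin n → Bool) := fun J =>
    univ.filter (fun b => ∀ s ∈ SJ p J, b s.1 s.2 = true)
  refine ⟨(univ.filter (fun J : Finset (Fin n) => n < g * J.card)).biUnion X, ?_, ?_⟩
  · rintro b ⟨C, hC, hlt⟩
    rw [mem_biUnion]
    refine ⟨Cᶜ, mem_filter.2 ⟨mem_univ _, ?_⟩, mem_filter.2 ⟨mem_univ _, ?_⟩⟩
    · rw [card_compl, Fintype.card_fin]
      obtain ⟨g', rfl⟩ : ∃ g', g = g' + 1 := ⟨g - 1, by omega⟩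
      have h1 : C.card ≤ n := by
        have := card_le_univ C
        rwa [Fintype.card_fin] at this
      obtain ⟨m, hm⟩ := Nat.exists_eq_add_of_le h1
      have h2 : n - C.card = m := by omega
      rw [h2]
      rw [Nat.add_sub_cancel] at hlt
      have h3 : (g' + 1) * C.card + (g' + 1) * m = g' * n + n := by
        rw [← mul_add, ← hm]; ring
      omega
    · rintro ⟨j, v⟩ hs
      unfold SJ at hs
      rw [mem_filter] at hs
      obtain ⟨-, hv, u, hu, huv, hj⟩ := hs
      rw [mem_compl] at hu hv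
      simp only at hv huv hj ⊢
      have h1 : ¬ (GM (mixp p z b)).Adj u v := by
        intro h
        rcases hC u v h with h | h
        · exact hu h
        · exact hv h
      have h2 : mixp p z b s(u, v) = false := by
        rw [Bool.eq_false_iff]
        intro h
        exact h1 ⟨huv, h⟩
      have h3 : z (b (p s(u, v))) s(u, v) = false := h2
      rw [hj] at h3
      exact (z_false huv h3).2
  · have hX : ∀ J ∈ univ.filter (fun J : Finset (Fin n) => n < g * J.card),
        (X J).card * 2 ^ (3 * n) ≤ Fintype.card (Fin n → Bool) ^ t := by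
      intro J hJ
      have hJ' := (mem_filter.1 hJ).2
      have h1 := card_SJ p hp J
      obtain ⟨m, hm⟩ : ∃ m, m = J.card := ⟨_, rfl⟩
      obtain ⟨S, hS⟩ : ∃ S, S = (SJ p J).card := ⟨_, rfl⟩
      rw [← hm, ← hS] at h1
      rw [← hm] at hJ'
      have hm2 : 2 ≤ m := by
        by_contra hcon
        have : m ≤ 1 := by omega
        have h2 : g * m ≤ g * 1 := Nat.mul_le_mul_left _ this
        omega
      have h3 : 3 * n ≤ S := by
        by_contra hcon
        rw [not_le] at hcon
        have h4 : m * (m - 1) ≤ 2 * y * (3 * n) := h1.trans (Nat.mul_le_mul_left _ hcon.le)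
        have h5 : 2 * g ^ 2 * (m * (m - 1)) ≤ n * n := by
          calc 2 * g ^ 2 * (m * (m - 1)) ≤ 2 * g ^ 2 * (2 * y * (3 * n)) :=
                Nat.mul_le_mul_left _ h4
            _ = (12 * g ^ 2 * y) * n := by ring
            _ ≤ n * n := Nat.mul_le_mul_right _ hy
        have h6 : n * n < (g * m) * (g * m) := Nat.mul_self_lt_mul_self hJ'
        have h7 : (g * m) * (g * m) ≤ 2 * g ^ 2 * (m * (m - 1)) := by
          have h8 : m ≤ 2 * (m - 1) := by omega
          calc (g * m) * (g * m) = g ^ 2 * (m * m) := by ring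
            _ ≤ g ^ 2 * (m * (2 * (m - 1))) :=
                Nat.mul_le_mul_left _ (Nat.mul_le_mul_left _ h8)
            _ = _ := by ring
        omega
      calc (X J).card * 2 ^ (3 * n) ≤ (X J).card * 2 ^ (SJ p J).card :=
            Nat.mul_le_mul_left _ (Nat.pow_le_pow_right (by norm_num) (hS ▸ h3))
        _ ≤ _ := card_coinc _
    have h1 : ((univ.filter (fun J : Finset (Fin n) => n < g * J.card)).biUnion X).card *
        2 ^ (3 * n) ≤ 2 ^ n * Fintype.card (Fin n → Bool) ^ t := by
      calc _ ≤ (∑ J ∈ univ.filter (fun J : Finset (Fin n) => n < g * J.card), (X J).card) *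
          2 ^ (3 * n) := Nat.mul_le_mul_right _ card_biUnion_le
        _ = ∑ J ∈ univ.filter (fun J : Finset (Fin n) => n < g * J.card),
            (X J).card * 2 ^ (3 * n) := by rw [sum_mul]
        _ ≤ ∑ _J ∈ univ.filter (fun J : Finset (Fin n) => n < g * J.card),
            Fintype.card (Fin n → Bool) ^ t := sum_le_sum hX
        _ = (univ.filter (fun J : Finset (Fin n) => n < g * J.card)).card *
            Fintype.card (Fin n → Bool) ^ t := by rw [sum_const, smul_eq_mul]
        _ ≤ _ := by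
            refine Nat.mul_le_mul_right _ ?_
            refine (card_le_univ _).trans (le_of_eq ?_)
            rw [Fintype.card_finset, Fintype.card_fin]
    refine Nat.le_of_mul_le_mul_left (c := 2 ^ n) ?_ (Nat.two_pow_pos n)
    refine le_trans (le_of_eq ?_) h1
    rw [show 3 * n = n + 2 * n by ring, pow_add]
    ring

/-- **Vertex cover.** -/
theorem main : ∃ Γ : ℕ, ∀ g n : ℕ, 1 ≤ g → Γ * g ^ 8 ≤ n →
    ∀ (μ : ℕ) (R : Type) [Fintype R] [Nonempty R] (K W : R → Type) [∀ ρ, Field (K ρ)]
      [∀ ρ, Fintype (W ρ)] (T : ∀ ρ, Net (K ρ) (Sym2 (Fin n)) Bool (W ρ))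
      (a : ∀ ρ, W ρ → K ρ),
      (∀ ρ e, (T ρ).reads e ≤ 1) →
      (∀ ρ (G : SimpleGraph (Fin n)), (∀ C, Cover G C → (g - 1) * n ≤ g * C.card) →
        (T ρ).value (a ρ) (bits G) = 0) →
      (∀ G : SimpleGraph (Fin n), (∃ C, Cover G C ∧ 2 * C.card ≤ n) →
        Nat.card R ≤ 2 ^ μ * Nat.card {ρ // (T ρ).value (a ρ) (bits G) ≠ 0}) →
      ∃ ρ, 2 ^ n ≤ (2 ^ μ * Fintype.card (W ρ)) ^ (Γ * g ^ 4) := by
  classical
  refine ⟨2 ^ 22, fun g n hg hng μ R _ _ K W _ _ T a h1 hno hyes => ?_⟩
  obtain ⟨t, ht⟩ : ∃ t, t = 1152 * g ^ 4 + 1 := ⟨_, rfl⟩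
  have hg4 : 1 ≤ g ^ 4 := Nat.one_le_pow _ _ hg
  have hg8 : g ^ 4 * g ^ 4 = g ^ 8 := by ring
  have hnD : (t + 2) * (t + 1) ≤ n := by
    have e1 : (t + 2) * (t + 1) ≤ (1155 * g ^ 4) * (1154 * g ^ 4) :=
      Nat.mul_le_mul (by omega) (by omega)
    have e2 : (1155 * g ^ 4) * (1154 * g ^ 4) = 1332870 * g ^ 8 := by ring
    rw [e2] at e1
    omega
  have hgg : g ^ 2 ≤ g ^ 8 := Nat.pow_le_pow_right hg (by norm_num)
  have hg1 : g ≤ g ^ 8 := Nat.le_self_pow (by norm_num) g
  obtain ⟨y, hy⟩ : ∃ y, y = n / (12 * g ^ 2) := ⟨_, rfl⟩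
  have hg2 : 1 ≤ g ^ 2 := Nat.one_le_pow _ _ hg
  have hy1 : 1 ≤ y := by
    rw [hy]
    exact Nat.div_pos (by omega) (by omega)
  have hyn : 12 * g ^ 2 * y ≤ n := by
    rw [hy]
    exact Nat.mul_div_le n _
  have hny : n < 12 * g ^ 2 * (y + 1) := by
    rw [hy]
    exact Nat.lt_mul_div_succ n (by omega)
  have hn1 : 1 ≤ n := by omega
  have hE : 2 * Fintype.card (Sym2 (Fin n)) + y ^ 2 ≤ y ^ 2 * t := by
    have e0 : Fintype.card (Sym2 (Fin n)) ≤ n * n := by
      rw [Sym2.card, Fintype.card_fin, Nat.choose_two_right, Nat.add_sub_cancel]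
      apply Nat.div_le_of_le_mul
      have : n ≤ n * n := Nat.le_mul_self n
      ring_nf
      nlinarith
    have e1 : n ≤ 24 * g ^ 2 * y := by
      have : 12 * g ^ 2 * (y + 1) ≤ 24 * g ^ 2 * y := by nlinarith
      omega
    have e2 : n * n ≤ (24 * g ^ 2 * y) * (24 * g ^ 2 * y) := Nat.mul_le_mul e1 e1
    calc 2 * Fintype.card (Sym2 (Fin n)) + y ^ 2 ≤
        2 * ((24 * g ^ 2 * y) * (24 * g ^ 2 * y)) + y ^ 2 :=
          Nat.add_le_add_right (Nat.mul_le_mul_left _ (e0.trans e2)) _
      _ = _ := by rw [ht]; ring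
  obtain ⟨Y, hY⟩ : ∃ Y : Finset (Fin n → Bool), Y = univ.filter (fun A =>
    n ≤ 2 * (univ.filter (fun v => A v = true)).card) := ⟨_, rfl⟩
  have hYc : Fintype.card (Fin n → Bool) ≤ 2 ^ 1 * Y.card := by
    have e1 : (Yᶜ).card ≤ Y.card := by
      refine card_le_card_of_injOn (fun A v => !A v) (fun A hA => ?_) (fun A _ A' _ h => ?_)
      · rw [mem_coe, mem_compl, hY, mem_filter] at hA
        rw [mem_coe, hY, mem_filter]
        refine ⟨mem_univ _, ?_⟩
        have e2 := card_filter_add_card_filter_not (s := (univ : Finset (Fin n)))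
          (fun v => A v = true)
        rw [card_univ, Fintype.card_fin] at e2
        have e3 : (univ.filter (fun v => (!A v) = true)) = univ.filter (fun v => ¬ A v = true) := by
          ext v
          simp
        have e4 : ¬ n ≤ 2 * (univ.filter (fun v => A v = true)).card :=
          fun h => hA ⟨mem_univ _, h⟩
        simp only at e3 ⊢
        rw [e3]
        omega
      · funext v
        have := congrFun h v
        simp only at this
        exact Bool.not_inj this
    have e2 := card_add_card_compl Y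
    omega
  obtain ⟨ρ, hρ, hw1⟩ := rand_density μ R K W T a h1 (θ := y ^ 2) (t := t)
    (Nat.one_le_pow _ _ hy1) (by omega) hE (U := Fin n → Bool) z Y (η := 1) hYc
    (fun A hA => hyes _ ⟨univ.filter (fun v => ¬ A v = true), fun u v h => by
        by_contra hcon
        push Not at hcon
        rw [mem_filter, mem_filter] at hcon
        apply h.2
        constructor
        · by_contra h'
          exact hcon.1 ⟨mem_univ _, h'⟩
        · by_contra h'
          exact hcon.2 ⟨mem_univ _, h'⟩, by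
        rw [hY, mem_filter] at hA
        have e2 := card_filter_add_card_filter_not (s := (univ : Finset (Fin n)))
          (fun v => A v = true)
        rw [card_univ, Fintype.card_fin] at e2
        have := hA.2
        omega⟩) (N := 2 ^ (2 * n)) (fun ρ p hp => by
        obtain ⟨B, hB1, hB2⟩ := few_bad hyn hg (by omega) p hp
        refine ⟨B, fun b hb => hB1 b ?_, hB2⟩
        by_contra hcon
        push Not at hcon
        apply hb
        have h2 := hno ρ (GM (mixp p z b)) hcon
        rwa [bits_GM (x := mixp p z b) (fun v => z_diag _ v)] at h2)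
  refine ⟨ρ, ?_⟩
  obtain ⟨w, hw⟩ : ∃ w, w = Fintype.card (W ρ) := ⟨_, rfl⟩
  rw [← hw] at hρ hw1 ⊢
  obtain ⟨X, hX⟩ : ∃ X, X = 2 ^ μ * w := ⟨_, rfl⟩
  have hX1 : 1 ≤ X := by
    rw [hX]
    exact Nat.mul_pos (Nat.pow_pos (by norm_num)) hw1
  rw [← hX]
  have e1 : 2 ^ (μ + 1 + 1) * (t * w ^ 3) ≤ 2 ^ (t + 2) * X ^ 3 := by
    have e2 : t ≤ 2 ^ t := Nat.lt_two_pow_self.le
    have e3 : 2 ^ μ ≤ (2 ^ μ) ^ 3 := by
      conv_lhs => rw [← pow_one (2 ^ μ)]
      exact Nat.pow_le_pow_right (Nat.pow_pos (by norm_num)) (by norm_num)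
    calc 2 ^ (μ + 1 + 1) * (t * w ^ 3) = 4 * (2 ^ μ * (t * w ^ 3)) := by
          rw [pow_succ, pow_succ]; ring
      _ ≤ 4 * ((2 ^ μ) ^ 3 * (2 ^ t * w ^ 3)) :=
        Nat.mul_le_mul_left _ (Nat.mul_le_mul e3 (Nat.mul_le_mul_right _ e2))
      _ = _ := by rw [hX, pow_add]; ring
  have e4 : 2 ^ (2 * n) ≤ 2 ^ ((t + 2) * (t + 1)) * X ^ (3 * (t + 1)) := by
    calc 2 ^ (2 * n) ≤ (2 ^ (t + 2) * X ^ 3) ^ (t + 1) := hρ.trans (Nat.pow_le_pow_left e1 _)
      _ = _ := by rw [mul_pow, ← pow_mul, ← pow_mul]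
  have e5 : 2 ^ ((t + 2) * (t + 1)) ≤ 2 ^ n := Nat.pow_le_pow_right (by norm_num) hnD
  have e6 : 2 ^ n ≤ X ^ (3 * (t + 1)) := by
    refine Nat.le_of_mul_le_mul_left (c := 2 ^ n) ?_ (Nat.two_pow_pos n)
    rw [← pow_add, show n + n = 2 * n by ring]
    exact e4.trans (Nat.mul_le_mul_right _ e5)
  exact e6.trans (Nat.pow_le_pow_right hX1 (by omega))

/-- Conversely the vertex covers with at most `m` elements are counted by linear networks. -/
theorem upper (n m : ℕ) (hn : 1 ≤ n) :
    ∃ (T : Net ℚ (Sym2 (Fin n)) Bool (Finset (Fin n))) (a : Finset (Fin n) → ℚ),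
      T.Linear ∧ (∀ e, T.reads e = 1) ∧
        ∀ G : SimpleGraph (Fin n),
          T.value a (bits G) = (Nat.card {C : Finset (Fin n) // Cover G C ∧ C.card ≤ m} : ℚ) := by
  classical
  have : Nonempty (Sym2 (Fin n)) := ⟨s(⟨0, hn⟩, ⟨0, hn⟩)⟩
  obtain ⟨T, h1, h2, h3, h4⟩ := exists_product (K := ℚ)
    (fun (e : Sym2 (Fin n)) (ω : Bool) (C : Finset (Fin n)) =>
      if ω = true → ∃ v ∈ C, v ∈ e then (1 : ℚ) else 0)
  refine ⟨T, fun C => if C.card ≤ m then 1 else 0, h1, h2, fun G => ?_⟩
  have h5 : ∀ C : Finset (Fin n), T.eval (bits G) C = if Cover G C then 1 else 0 := by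
    intro C
    rw [h4]
    by_cases hC : Cover G C
    · rw [if_pos hC]
      refine prod_eq_one fun e _ => ?_
      rw [if_pos]
      intro he
      unfold bits at he
      rw [decide_eq_true_iff] at he
      induction e with
      | _ u v =>
        rw [SimpleGraph.mem_edgeSet] at he
        rcases hC u v he with h | h
        · exact ⟨u, h, Sym2.mem_mk_left u v⟩
        · exact ⟨v, h, Sym2.mem_mk_right u v⟩
    · rw [if_neg hC]
      unfold Cover at hC
      push Not at hC
      obtain ⟨u, v, huv, hu, hv⟩ := hC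
      refine prod_eq_zero (mem_univ s(u, v)) (if_neg ?_)
      intro h
      obtain ⟨w, hw, hw'⟩ := h (by
        unfold bits
        rw [decide_eq_true_iff]
        exact huv)
      rw [Sym2.mem_iff] at hw'
      rcases hw' with rfl | rfl
      · exact hu hw
      · exact hv hw
  unfold Net.value
  rw [Nat.card_eq_fintype_card, Fintype.card_subtype, ← Nat.cast_one (R := ℚ), card_filter]
  push_cast
  refine sum_congr rfl fun C _ => ?_
  rw [h5]
  by_cases h6 : C.card ≤ m <;> by_cases h7 : Cover G C <;> simp [h6, h7]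

end Pool.Agent.V11163.VC
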